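import Mathlib

set_option autoImplicit false
open Set Topology

namespace Pool.Agent.helper76.KA

/-- `KAn A`: the subset `A` of the space `Z` is K-analytic, i.e. it is the union of an upper
semicontinuous compact-valued family indexed by the Baire space. -/
def KAn {Z : Type*} [TopologicalSpace Z] (A : Set Z) : Prop :=
  ∃ F : (ℕ → ℕ) → Set Z, (∀ s, IsCompact (F s)) ∧ (⋃ s, F s) = A ∧
    ∀ U : Set Z, IsOpen U → IsOpen {s | F s ⊆ U}

variable {Z W : Type*} [TopologicalSpace Z] [TopologicalSpace W]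

/-- Any Polish parameter space may be used. -/
theorem KAn.of_polish {T : Type*} [TopologicalSpace T] [PolishSpace T] {A : Set Z}
    (F : T → Set Z) (hc : ∀ t, IsCompact (F t)) (hA : (⋃ t, F t) = A)
    (hu : ∀ U, IsOpen U → IsOpen {t | F t ⊆ U}) : KAn A := by
  rcases isEmpty_or_nonempty T with hT | hT
  · refine ⟨fun _ => ∅, fun _ => isCompact_empty, ?_, fun U _ => ?_⟩
    · rw [← hA]; simp
    · simp
  · obtain ⟨f, hf, hs⟩ := PolishSpace.exists_nat_nat_continuous_surjective T
    refine ⟨fun s => F (f s), fun s => hc _, ?_, fun U hU => ?_⟩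
    · rw [← hA]; exact hs.iUnion_comp F
    · exact (hu U hU).preimage hf

theorem KAn.image {A : Set Z} (hA : KAn A) {f : Z → W} (hf : Continuous f) : KAn (f '' A) := by
  obtain ⟨F, hc, rfl, hu⟩ := hA
  refine ⟨fun s => f '' F s, fun s => (hc s).image hf, (image_iUnion).symm, fun U hU => ?_⟩
  simpa only [image_subset_iff] using hu _ (hU.preimage hf)

theorem KAn.of_isCompact {A : Set Z} (hA : IsCompact A) : KAn A := by
  refine ⟨fun _ => A, fun _ => hA, iUnion_const A, fun U _ => ?_⟩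
  by_cases h : A ⊆ U <;> simp [h]

theorem KAn.iUnion {A : ℕ → Set Z} (hA : ∀ n, KAn (A n)) : KAn (⋃ n, A n) := by
  choose F hc hU hu using hA
  refine KAn.of_polish (T := ℕ × (ℕ → ℕ)) (fun t => F t.1 t.2) (fun t => hc _ _) ?_
    (fun U hUo => ?_)
  · ext z
    simp only [mem_iUnion, Prod.exists]
    refine exists_congr fun n => ?_
    rw [← hU n, mem_iUnion]
  · rw [isOpen_iff_mem_nhds]
    rintro ⟨n, s⟩ hns
    have h1 : {p : ℕ × (ℕ → ℕ) | p.1 = n} ∈ 𝓝 (n, s) :=
      ((isOpen_discrete ({n} : Set ℕ)).preimage continuous_fst).mem_nhds rfl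
    have h2 : {p : ℕ × (ℕ → ℕ) | F n p.2 ⊆ U} ∈ 𝓝 (n, s) :=
      ((hu n U hUo).preimage continuous_snd).mem_nhds hns
    filter_upwards [h1, h2] with p hp1 hp2
    have hp1' : p.1 = n := hp1
    show F p.1 p.2 ⊆ U
    rw [hp1']; exact hp2

theorem KAn.union {A B : Set Z} (hA : KAn A) (hB : KAn B) : KAn (A ∪ B) := by
  have h := KAn.iUnion (A := fun n : ℕ => if n = 0 then A else B)
    (fun n => by by_cases hn : n = 0 <;> simp [hn, hA, hB])
  have e : (⋃ n : ℕ, (if n = 0 then A else B)) = A ∪ B := by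
    ext z
    simp only [mem_iUnion, mem_union]
    constructor
    · rintro ⟨n, hn⟩
      by_cases h0 : n = 0
      · left; simpa [h0] using hn
      · right; simpa [h0] using hn
    · rintro (h | h)
      · exact ⟨0, by simpa using h⟩
      · exact ⟨1, by simpa using h⟩
  rwa [e] at h

theorem KAn.prod {A : Set Z} {B : Set W} (hA : KAn A) (hB : KAn B) : KAn (A ×ˢ B) := by
  obtain ⟨F, hc, rfl, hu⟩ := hA
  obtain ⟨G, hc', rfl, hu'⟩ := hB
  refine KAn.of_polish (T := (ℕ → ℕ) × (ℕ → ℕ)) (fun t => F t.1 ×ˢ G t.2)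
    (fun t => (hc _).prod (hc' _)) ?_ (fun U hU => ?_)
  · ext ⟨z, w⟩
    simp only [mem_iUnion, mem_prod, Prod.exists]
    constructor
    · rintro ⟨s, t, h1, h2⟩; exact ⟨⟨s, h1⟩, ⟨t, h2⟩⟩
    · rintro ⟨⟨s, h1⟩, ⟨t, h2⟩⟩; exact ⟨s, t, h1, h2⟩
  · rw [isOpen_iff_mem_nhds]
    rintro ⟨s, t⟩ hst
    obtain ⟨u, v, huo, hvo, hsu, htv, huv⟩ := generalized_tube_lemma (hc s) (hc' t) hU hst
    have h1 : {p : (ℕ → ℕ) × (ℕ → ℕ) | F p.1 ⊆ u} ∈ 𝓝 (s, t) :=
      ((hu u huo).preimage continuous_fst).mem_nhds hsu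
    have h2 : {p : (ℕ → ℕ) × (ℕ → ℕ) | G p.2 ⊆ v} ∈ 𝓝 (s, t) :=
      ((hu' v hvo).preimage continuous_snd).mem_nhds htv
    filter_upwards [h1, h2] with p hp1 hp2
    exact (prod_mono hp1 hp2).trans huv

/-- Separation of a finite intersection of compact sets in a Hausdorff space. -/
theorem exists_open_of_inter_subset [T2Space Z] {K L U : Set Z} (hK : IsCompact K)
    (hL : IsCompact L) (hU : IsOpen U) (h : K ∩ L ⊆ U) :
    ∃ V V' : Set Z, IsOpen V ∧ IsOpen V' ∧ K ⊆ V ∧ L ⊆ V' ∧ V ∩ V' ⊆ U := by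
  have h1 : IsCompact (K \ U) := hK.diff hU
  have hd : Disjoint (K \ U) L := by
    rw [disjoint_left]
    rintro x ⟨hx1, hx2⟩ hx3
    exact hx2 (h ⟨hx1, hx3⟩)
  obtain ⟨V, V', hV, hV', hKV, hLV', hdis⟩ := SeparatedNhds.of_isCompact_isCompact h1 hL hd
  refine ⟨V ∪ U, V', hV.union hU, hV', ?_, hLV', ?_⟩
  · intro x hx
    by_cases hxU : x ∈ U
    · exact Or.inr hxU
    · exact Or.inl (hKV ⟨hx, hxU⟩)
  · rintro x ⟨hx1 | hx1, hx2⟩
    · exact absurd hx2 (disjoint_left.1 hdis hx1)
    · exact hx1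

theorem exists_open_of_finite_inter_subset [T2Space Z] (N : ℕ) :
    ∀ (K : ℕ → Set Z) (U : Set Z), (∀ n, IsCompact (K n)) → IsOpen U →
      (⋂ n ∈ Finset.range (N + 1), K n) ⊆ U →
      ∃ V : ℕ → Set Z, (∀ n, IsOpen (V n)) ∧ (∀ n, K n ⊆ V n) ∧
        (⋂ n ∈ Finset.range (N + 1), V n) ⊆ U := by
  induction N with
  | zero =>
    intro K U hK hU h
    refine ⟨fun n => if n = 0 then U else univ, ?_, ?_, ?_⟩
    · intro n; by_cases hn : n = 0 <;> simp [hn, hU]
    · intro n
      by_cases hn : n = 0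
      · subst hn; simpa using h
      · simp [hn]
    · simp
  | succ N ih =>
    intro K U hK hU h
    have hL : IsCompact (⋂ n ∈ Finset.range (N + 1), K n) := by
      have hsub : (⋂ n ∈ Finset.range (N + 1), K n) ⊆ K 0 :=
        iInter₂_subset 0 (by simp)
      refine (hK 0).of_isClosed_subset ?_ hsub
      exact isClosed_biInter fun n _ => (hK n).isClosed
    have h' : K (N + 1) ∩ (⋂ n ∈ Finset.range (N + 1), K n) ⊆ U := by
      intro x hx
      apply h
      rw [mem_iInter₂]
      intro n hn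
      rw [Finset.mem_range] at hn
      rcases Nat.lt_succ_iff_lt_or_eq.1 hn with h1 | h1
      · exact (mem_iInter₂.1 hx.2) n (Finset.mem_range.2 h1)
      · rw [h1]; exact hx.1
    obtain ⟨V, V', hV, hV', hKV, hLV', hVV⟩ := exists_open_of_inter_subset (hK (N + 1)) hL hU h'
    obtain ⟨W, hW, hKW, hWV⟩ := ih K V' hK hV' hLV'
    refine ⟨fun n => if n = N + 1 then V else W n, ?_, ?_, ?_⟩
    · intro n; by_cases hn : n = N + 1 <;> simp [hn, hV, hW]
    · intro n
      by_cases hn : n = N + 1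
      · subst hn; simpa using hKV
      · simpa [hn] using hKW n
    · intro x hx
      rw [mem_iInter₂] at hx
      refine hVV ⟨?_, hWV ?_⟩
      · simpa using hx (N + 1) (by simp)
      · rw [mem_iInter₂]
        intro n hn
        have hn' := Finset.mem_range.1 hn
        have := hx n (Finset.mem_range.2 (by omega))
        have hne : n ≠ N + 1 := by omega
        simpa [hne] using this

theorem KAn.iInter [T2Space Z] {A : ℕ → Set Z} (hA : ∀ n, KAn (A n)) : KAn (⋂ n, A n) := by
  choose F hc hU hu using hA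
  refine KAn.of_polish (T := ℕ → (ℕ → ℕ)) (fun t => ⋂ n, F n (t n)) (fun t => ?_) ?_
    (fun U hUo => ?_)
  · exact (hc 0 (t 0)).of_isClosed_subset (isClosed_iInter fun n => (hc n (t n)).isClosed)
      (iInter_subset _ 0)
  · ext z
    simp only [mem_iUnion, mem_iInter]
    constructor
    · rintro ⟨t, ht⟩ n
      rw [← hU n, mem_iUnion]
      exact ⟨t n, ht n⟩
    · intro h
      have h' : ∀ n, ∃ s, z ∈ F n s := fun n => by
        have := h n
        rwa [← hU n, mem_iUnion] at this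
      choose t ht using h'
      exact ⟨t, ht⟩
  · rw [isOpen_iff_mem_nhds]
    intro t ht
    have ht' : (⋂ n, F n (t n)) ⊆ U := ht
    -- finite subintersection inside `U`
    obtain ⟨N, hN⟩ : ∃ N : ℕ, (⋂ n ∈ Finset.range (N + 1), F n (t n)) ⊆ U := by
      by_contra hcon
      push Not at hcon
      have hne : (⋂ N : ℕ, ((⋂ n ∈ Finset.range (N + 1), F n (t n)) \ U)).Nonempty := by
        apply IsCompact.nonempty_iInter_of_sequence_nonempty_isCompact_isClosed
        · intro N x hx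
          refine ⟨?_, hx.2⟩
          rw [mem_iInter₂]
          intro n hn
          exact (mem_iInter₂.1 hx.1) n
            (Finset.mem_range.2 (by have := Finset.mem_range.1 hn; omega))
        · intro N
          obtain ⟨x, hx1, hx2⟩ := not_subset.1 (hcon N)
          exact ⟨x, hx1, hx2⟩
        · refine IsCompact.diff ?_ hUo
          refine (hc 0 (t 0)).of_isClosed_subset
            (isClosed_biInter fun n _ => (hc n (t n)).isClosed) ?_
          exact iInter₂_subset 0 (by simp)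
        · intro N
          exact (isClosed_biInter fun n _ => (hc n (t n)).isClosed).sdiff hUo
      obtain ⟨x, hx⟩ := hne
      rw [mem_iInter] at hx
      refine (hx 0).2 (ht' ?_)
      rw [mem_iInter]
      intro n
      exact (mem_iInter₂.1 (hx n).1) n (by simp)
    obtain ⟨V, hV, hKV, hVU⟩ := exists_open_of_finite_inter_subset N (fun n => F n (t n)) U
      (fun n => hc n _) hUo hN
    have hmem : ∀ n : ℕ, {p : ℕ → (ℕ → ℕ) | F n (p n) ⊆ V n} ∈ 𝓝 t := fun n => by
      have h1 : IsOpen {s : ℕ → ℕ | F n s ⊆ V n} := hu n (V n) (hV n)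
      have h2 : IsOpen ((fun p : ℕ → (ℕ → ℕ) => p n) ⁻¹' {s : ℕ → ℕ | F n s ⊆ V n}) :=
        h1.preimage (continuous_apply n)
      exact h2.mem_nhds (hKV n)
    have hmem' : (⋂ n ∈ Finset.range (N + 1), {p : ℕ → (ℕ → ℕ) | F n (p n) ⊆ V n}) ∈ 𝓝 t :=
      (Filter.biInter_finset_mem _).2 fun n _ => hmem n
    filter_upwards [hmem'] with p hp
    rw [mem_iInter₂] at hp
    intro x hx
    rw [mem_iInter] at hx
    apply hVU
    rw [mem_iInter₂]
    intro n hn
    exact hp n hn (hx n)

theorem kAn_univ_real : KAn (univ : Set ℝ) := by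
  have h := KAn.iUnion (A := fun n : ℕ => Icc (-(n : ℝ)) n) fun n => KAn.of_isCompact isCompact_Icc
  have e : (⋃ n : ℕ, Icc (-(n : ℝ)) n) = univ := by
    refine eq_univ_of_forall fun x => ?_
    obtain ⟨n, hn⟩ := exists_nat_ge |x|
    exact mem_iUnion.2 ⟨n, (abs_le.1 hn)⟩
  rwa [e] at h

theorem KAn.preimage_of_isInducing {f : Z → W} (hf : IsInducing f) {A : Set W} (hA : KAn A)
    (hr : A ⊆ range f) : KAn (f ⁻¹' A) := by
  obtain ⟨F, hc, rfl, hu⟩ := hA
  have hFr : ∀ s, F s ⊆ range f := fun s => (subset_iUnion F s).trans hr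
  refine ⟨fun s => f ⁻¹' F s, fun s => ?_, (preimage_iUnion).symm, fun U hU => ?_⟩
  · rw [hf.isCompact_iff, image_preimage_eq_of_subset (hFr s)]
    exact hc s
  · obtain ⟨V, hV, rfl⟩ := hf.isOpen_iff.1 hU
    convert hu V hV using 1
    ext s
    show f ⁻¹' F s ⊆ f ⁻¹' V ↔ F s ⊆ V
    constructor
    · intro h w hw
      obtain ⟨z, rfl⟩ := hFr s hw
      exact h hw
    · intro h z hz
      exact h hz

/-! ### Function spaces -/

/-- The space `C_p(Z)` of real continuous functions with the topology of pointwise convergence. -/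
abbrev Cp (Z : Type*) [TopologicalSpace Z] := {f : Z → ℝ // Continuous f}

/-- Some K-analytic subset of `C_p(T)` separates the points of `T`. -/
def Sep (T : Type*) [TopologicalSpace T] : Prop :=
  ∃ A : Set (Cp T), KAn A ∧ ∀ x y : T, x ≠ y → ∃ f ∈ A, f.1 x ≠ f.1 y

/-- Restriction (precomposition) map. -/
def precomp (g : Z → W) (hg : Continuous g) (f : Cp W) : Cp Z := ⟨f.1 ∘ g, f.2.comp hg⟩

theorem continuous_eval (x : Z) : Continuous fun f : Cp Z => f.1 x :=
  (continuous_apply x).comp continuous_subtype_val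

theorem continuous_precomp (g : Z → W) (hg : Continuous g) : Continuous (precomp g hg) := by
  refine Continuous.subtype_mk ?_ _
  exact continuous_pi fun x => continuous_eval (g x)

theorem precomp_injective (g : Z → W) (hg : Continuous g) (hs : Function.Surjective g) :
    Function.Injective (precomp g hg) := by
  intro f f' h
  apply Subtype.ext
  funext w
  obtain ⟨z, rfl⟩ := hs w
  exact congrFun (congrArg Subtype.val h) z

theorem Sep.comap {g : Z → W} (hW : Sep W) (hg : Continuous g) (hi : Function.Injective g) :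
    Sep Z := by
  obtain ⟨A, hA, hsep⟩ := hW
  refine ⟨precomp g hg '' A, hA.image (continuous_precomp g hg), fun x y hxy => ?_⟩
  obtain ⟨f, hf, hne⟩ := hsep (g x) (g y) (fun h => hxy (hi h))
  exact ⟨precomp g hg f, mem_image_of_mem _ hf, hne⟩

section algebra

variable {T : Type*} [TopologicalSpace T]

def cst (c : ℝ) : Cp T := ⟨fun _ => c, continuous_const⟩
def addC (p : Cp T × Cp T) : Cp T := ⟨fun x => p.1.1 x + p.2.1 x, p.1.2.add p.2.2⟩
def mulC (p : Cp T × Cp T) : Cp T := ⟨fun x => p.1.1 x * p.2.1 x, p.1.2.mul p.2.2⟩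

theorem continuous_cst : Continuous (cst : ℝ → Cp T) :=
  (continuous_pi fun _ => continuous_id).subtype_mk _

theorem continuous_addC : Continuous (addC : Cp T × Cp T → Cp T) := by
  refine Continuous.subtype_mk ?_ _
  exact continuous_pi fun x =>
    ((continuous_eval x).comp continuous_fst).add ((continuous_eval x).comp continuous_snd)

theorem continuous_mulC : Continuous (mulC : Cp T × Cp T → Cp T) := by
  refine Continuous.subtype_mk ?_ _
  exact continuous_pi fun x =>
    ((continuous_eval x).comp continuous_fst).mul ((continuous_eval x).comp continuous_snd)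

/-- Stages of the algebra generated by `A`. -/
def stage (A : Set (Cp T)) : ℕ → Set (Cp T)
  | 0 => A ∪ range cst
  | n + 1 => stage A n ∪ (addC '' (stage A n ×ˢ stage A n) ∪ mulC '' (stage A n ×ˢ stage A n))

/-- The algebra generated by `A`. -/
def alg (A : Set (Cp T)) : Set (Cp T) := ⋃ n, stage A n

theorem kAn_stage {A : Set (Cp T)} (hA : KAn A) (n : ℕ) : KAn (stage A n) := by
  induction n with
  | zero =>
    refine hA.union ?_
    rw [← image_univ]
    exact kAn_univ_real.image continuous_cst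
  | succ n ih =>
    exact ih.union (((ih.prod ih).image continuous_addC).union
      ((ih.prod ih).image continuous_mulC))

theorem kAn_alg {A : Set (Cp T)} (hA : KAn A) : KAn (alg A) := KAn.iUnion (kAn_stage hA)

theorem stage_mono (A : Set (Cp T)) : Monotone (stage A) :=
  monotone_nat_of_le_succ fun _ => subset_union_left

theorem subset_alg (A : Set (Cp T)) : A ⊆ alg A :=
  (subset_union_left).trans (subset_iUnion (stage A) 0)

theorem cst_mem_alg (A : Set (Cp T)) (c : ℝ) : cst c ∈ alg A :=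
  mem_iUnion.2 ⟨0, Or.inr (mem_range_self c)⟩

theorem add_mem_alg {A : Set (Cp T)} {f g : Cp T} (hf : f ∈ alg A) (hg : g ∈ alg A) :
    addC (f, g) ∈ alg A := by
  obtain ⟨m, hm⟩ := mem_iUnion.1 hf
  obtain ⟨n, hn⟩ := mem_iUnion.1 hg
  refine mem_iUnion.2 ⟨max m n + 1, Or.inr (Or.inl ⟨(f, g), ⟨?_, ?_⟩, rfl⟩)⟩
  · exact stage_mono A (le_max_left m n) hm
  · exact stage_mono A (le_max_right m n) hn

theorem mul_mem_alg {A : Set (Cp T)} {f g : Cp T} (hf : f ∈ alg A) (hg : g ∈ alg A) :
    mulC (f, g) ∈ alg A := by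
  obtain ⟨m, hm⟩ := mem_iUnion.1 hf
  obtain ⟨n, hn⟩ := mem_iUnion.1 hg
  refine mem_iUnion.2 ⟨max m n + 1, Or.inr (Or.inr ⟨(f, g), ⟨?_, ?_⟩, rfl⟩)⟩
  · exact stage_mono A (le_max_left m n) hm
  · exact stage_mono A (le_max_right m n) hn

theorem exists_bump {A : Set (Cp T)} (hsep : ∀ x y : T, x ≠ y → ∃ f ∈ A, f.1 x ≠ f.1 y)
    (s : Finset T) : ∀ t₀ : T, t₀ ∉ s → ∃ q ∈ alg A, q.1 t₀ = 1 ∧ ∀ t ∈ s, q.1 t = 0 := by
  classical
  induction s using Finset.induction_on with
  | empty => intro t₀ _; exact ⟨cst 1, cst_mem_alg A 1, rfl, by simp⟩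
  | insert t s _ ih =>
    intro t₀ ht₀
    rw [Finset.mem_insert, not_or] at ht₀
    obtain ⟨q, hq, hq1, hq0⟩ := ih t₀ ht₀.2
    obtain ⟨f, hf, hne⟩ := hsep t₀ t ht₀.1
    have hne' : f.1 t₀ - f.1 t ≠ 0 := sub_ne_zero.2 hne
    have h1 : mulC (cst (f.1 t₀ - f.1 t)⁻¹, addC (f, cst (-(f.1 t)))) ∈ alg A :=
      mul_mem_alg (cst_mem_alg A _) (add_mem_alg (subset_alg A hf) (cst_mem_alg A _))
    refine ⟨mulC (mulC (cst (f.1 t₀ - f.1 t)⁻¹, addC (f, cst (-(f.1 t)))), q),
      mul_mem_alg h1 hq, ?_, ?_⟩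
    · simp only [mulC, addC, cst]
      rw [hq1, mul_one, ← sub_eq_add_neg, inv_mul_cancel₀ hne']
    · intro u hu
      simp only [mulC, addC, cst]
      rcases Finset.mem_insert.1 hu with h | h
      · rw [h]; ring
      · rw [hq0 u h]; ring

theorem exists_interp {A : Set (Cp T)} (hsep : ∀ x y : T, x ≠ y → ∃ f ∈ A, f.1 x ≠ f.1 y)
    (g : T → ℝ) (s : Finset T) : ∃ a ∈ alg A, ∀ t ∈ s, a.1 t = g t := by
  classical
  induction s using Finset.induction_on with
  | empty => exact ⟨cst 0, cst_mem_alg A 0, by simp⟩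
  | insert t s ht ih =>
    obtain ⟨a, ha, hag⟩ := ih
    obtain ⟨q, hq, hq1, hq0⟩ := exists_bump hsep s t ht
    refine ⟨addC (a, mulC (cst (g t - a.1 t), q)),
      add_mem_alg ha (mul_mem_alg (cst_mem_alg A _) hq), ?_⟩
    intro u hu
    simp only [mulC, addC, cst]
    rcases Finset.mem_insert.1 hu with h | h
    · rw [h, hq1]; ring
    · rw [hq0 u h, hag u h]; ring

theorem alg_dense {A : Set (Cp T)} (hsep : ∀ x y : T, x ≠ y → ∃ f ∈ A, f.1 x ≠ f.1 y)
    {U : Set (Cp T)} (hU : IsOpen U) (hne : U.Nonempty) : ∃ a ∈ alg A, a ∈ U := by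
  obtain ⟨V, hV, rfl⟩ := isOpen_induced_iff.1 hU
  obtain ⟨g, hg⟩ := hne
  obtain ⟨I, u, hu, hIu⟩ := isOpen_pi_iff.1 hV g.1 hg
  obtain ⟨a, ha, hag⟩ := exists_interp hsep g.1 I
  refine ⟨a, ha, hIu ?_⟩
  intro t ht
  have := (hu t ht).2
  rwa [← hag t ht] at this

/-- If `C_p(T)` has a separating K-analytic subset, so has `C_p(C_p(C_p(T)))`. -/
theorem Sep.double (hT : Sep T) : Sep (Cp (Cp T)) := by
  obtain ⟨A, hA, hsep⟩ := hT
  -- evaluation
  let j : Cp T → Cp (Cp (Cp T)) := fun f =>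
    ⟨fun Φ => Φ.1 f, (continuous_apply f).comp continuous_subtype_val⟩
  have hj : Continuous j :=
    (continuous_pi fun Φ : Cp (Cp T) => Φ.2).subtype_mk _
  refine ⟨j '' alg A, (kAn_alg hA).image hj, fun Φ Ψ hne => ?_⟩
  have hex : ∃ g : Cp T, Φ.1 g ≠ Ψ.1 g := by
    by_contra h
    push Not at h
    exact hne (Subtype.ext (funext h))
  obtain ⟨g, hg⟩ := hex
  have hopen : IsOpen {f : Cp T | Φ.1 f ≠ Ψ.1 f} := isOpen_ne_fun Φ.2 Ψ.2
  obtain ⟨a, ha, haU⟩ := alg_dense hsep hopen ⟨g, hg⟩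
  exact ⟨j a, mem_image_of_mem _ ha, haU⟩

end algebra

/-- Talagrand: for compact `K`, a separating K-analytic subset makes `C_p(K)` K-analytic. -/
theorem Sep.kAn {K : Type*} [TopologicalSpace K] [CompactSpace K] (hK : Sep K) :
    KAn (univ : Set (Cp K)) := by
  obtain ⟨A, hA, hsep⟩ := hK
  let B : ℕ → Set (K → ℝ) := fun n => Set.pi univ fun _ => Icc (-(1 / ((n : ℝ) + 1))) (1 / ((n : ℝ) + 1))
  have hB : ∀ n, IsCompact (B n) := fun n => isCompact_univ_pi fun _ => isCompact_Icc
  let S : ℕ → Set (K → ℝ) := fun n =>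
    (fun p : (K → ℝ) × (K → ℝ) => p.1 + p.2) '' ((Subtype.val '' alg A) ×ˢ B n)
  have hS : ∀ n, KAn (S n) := fun n =>
    (((kAn_alg hA).image continuous_subtype_val).prod (KAn.of_isCompact (hB n))).image
      (continuous_fst.add continuous_snd)
  have hI : KAn (⋂ n, S n) := KAn.iInter hS
  have hEq : (⋂ n, S n) = range (Subtype.val : Cp K → (K → ℝ)) := by
    apply Subset.antisymm
    · intro f hf
      rw [mem_iInter] at hf
      have hf' : ∀ n : ℕ, ∃ a : Cp K, ∀ x, |f x - a.1 x| ≤ 1 / ((n : ℝ) + 1) := by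
        intro n
        obtain ⟨⟨a', b⟩, ⟨⟨a, _, rfl⟩, hb⟩, hab⟩ := hf n
        refine ⟨a, fun x => ?_⟩
        have h1 : f x = a.1 x + b x := by rw [← hab]; rfl
        have h2 := hb x (mem_univ x)
        rw [h1, add_sub_cancel_left]
        exact abs_le.2 h2
      choose a ha using hf'
      have hcont : Continuous f := by
        have hu : TendstoUniformly (fun (n : ℕ) (x : K) => (a n).1 x) f Filter.atTop := by
          rw [Metric.tendstoUniformly_iff]
          intro ε hε
          obtain ⟨N, hN⟩ := exists_nat_one_div_lt hε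
          filter_upwards [Filter.eventually_ge_atTop N] with n hn x
          rw [Real.dist_eq]
          refine (ha n x).trans_lt (lt_of_le_of_lt ?_ hN)
          apply one_div_le_one_div_of_le
          · positivity
          · have : (N : ℝ) ≤ n := by exact_mod_cast hn
            linarith
        exact hu.continuous (Filter.Eventually.frequently (Filter.Eventually.of_forall fun n => (a n).2))
      exact ⟨⟨f, hcont⟩, rfl⟩
    · rintro _ ⟨f, rfl⟩
      rw [mem_iInter]
      intro n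
      let R : Subalgebra ℝ C(K, ℝ) :=
        { carrier := {g | (⟨g, g.continuous⟩ : Cp K) ∈ alg A}
          mul_mem' := fun {a b} ha hb => mul_mem_alg ha hb
          add_mem' := fun {a b} ha hb => add_mem_alg ha hb
          algebraMap_mem' := fun r => cst_mem_alg A r }
      have hR : R.SeparatesPoints := by
        intro x y hxy
        obtain ⟨f, hf, hne⟩ := hsep x y hxy
        exact ⟨f.1, ⟨⟨f.1, f.2⟩, subset_alg A hf, rfl⟩, hne⟩
      obtain ⟨g, hg⟩ := ContinuousMap.exists_mem_subalgebra_near_continuous_of_separatesPoints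
        R hR f.1 f.2 (1 / ((n : ℝ) + 1)) (by positivity)
      refine ⟨((g : C(K, ℝ)), fun x => f.1 x - (g : C(K, ℝ)) x), ⟨⟨⟨_, (g : C(K, ℝ)).continuous⟩, g.2, rfl⟩, ?_⟩, ?_⟩
      · intro x _
        have := (hg x).le
        rw [Real.norm_eq_abs, abs_sub_comm] at this
        exact abs_le.1 this
      · funext x
        show (g : C(K, ℝ)) x + (f.1 x - (g : C(K, ℝ)) x) = f.1 x
        ring
  rw [hEq] at hI
  have := hI.preimage_of_isInducing (f := (Subtype.val : Cp K → (K → ℝ)))
    IsInducing.subtypeVal Subset.rfl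
  rwa [preimage_range] at this

end Pool.Agent.helper76.KA
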